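import Pool.Agent.H37.CTT.Stmts
import Pool.Agent.H17.CND.LON
import Pool.Agent.H17.CND.ZPW
import Pool.Agent.H88.CND.EXP

/-!
# Row SC5 of the board `ctt`: the shape of the elements of the wild inertia group, case (I)
-/

set_option autoImplicit false

namespace Pool.CND

open Finset Polynomial

theorem sc5_thm (_hWLD : S_WLD) : S_SC5 := by
  intro p k F L _ _ _ _ _ _ f q t a b X G₀ ρ P hp _hp2 hchar hf hq hF hR hC hO w hw
  have hq2 : 2 ≤ q := by
    rw [hq]
    calc 2 ≤ p := hp.two_le
      _ = p ^ 1 := (pow_one p).symm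
      _ ≤ p ^ f := Nat.pow_le_pow_right hp.pos hf
  have hqz : (2 : ℤ) ≤ (q : ℤ) := by exact_mod_cast hq2
  have hsingle : ∀ i : Fin 4,
      (∑ j, cst k F L ((fun j => if j = i then (1 : F) else 0) j) * X j) = X i := by
    intro i
    rw [Finset.sum_eq_single i]
    · simp [cst]
    · intro j _ hj
      simp [cst, hj]
    · intro h2
      exact absurd (mem_univ i) h2
  have hXne : ∀ i, X i ≠ 0 := by
    intro i h
    have h1 := hR.ind (fun j => if j = i then 1 else 0) (by rw [hsingle i]; exact h)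
    have h2 := congrFun h1 i
    simp at h2
  -- strict increase
  have hbig : ∀ x : L, x ≠ 0 → P.Ge (ρ w x - x) (P.ord x + 1) := by
    intro x hx
    obtain ⟨hfix, hram⟩ := hw
    have h3 : P.Ge (ρ w P.pi - P.pi) ((1 : ℤ) + 1) := by
      rcases hram P.pi P.pi_ne P.ord_pi with h | h
      · exact Or.inl (sub_eq_zero.2 h)
      · right
        simpa using h
    rcases lon_thm exp_thm zpw_thm k L P (ρ w) P.pi 1 hfix P.pi_ne P.ord_pi (by norm_num) h3 x
      with h | h
    · exact h
    · exact absurd h hx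
  -- the difference
  have hdiff : ∀ i, ρ w (X i) - X i =
      ∑ j, cst k F L (w.1.1 j i - if j = i then 1 else 0) * X j := by
    intro i
    rw [hC.act w i]
    have h1 : ∀ j, cst k F L (w.1.1 j i - if j = i then 1 else 0) * X j =
        cst k F L (w.1.1 j i) * X j - (if j = i then X j else 0) := by
      intro j
      split_ifs <;> simp [cst] <;> ring
    rw [sum_congr rfl fun j _ => h1 j, sum_sub_distrib, sum_ite_eq' univ i X]
    simp
  have hQ : (0 : ℤ) < (q : ℤ) ^ 2 - 1 := by nlinarith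
  have hQ2 : (0 : ℤ) < (q : ℤ) ^ 2 * ((q : ℤ) ^ 2 - 1) := by positivity
  have hneg := hO.neg
  have hsm : ∀ j : Fin 4, (j = 0 ∨ j = 1) → ((q : ℤ) ^ 2 - 1) * P.ord (X j) = -P.ord t := by
    intro j hj
    have h1 := hO.small (fun i => if i = j then 1 else 0)
      (by rcases hj with rfl | rfl <;> simp) (by rcases hj with rfl | rfl <;> simp)
      (by rcases hj with rfl | rfl <;> simp)
    rwa [hsingle j] at h1
  have htp : ∀ j : Fin 4, (j = 2 ∨ j = 3) →
      (q : ℤ) ^ 2 * ((q : ℤ) ^ 2 - 1) * P.ord (X j) = P.ord t := by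
    intro j hj
    have h1 := hO.top (fun i => if i = j then 1 else 0)
      (by rcases hj with rfl | rfl <;> simp)
    rwa [hsingle j] at h1
  have hlow : ∀ j : Fin 4, P.ord t ≤ (q : ℤ) ^ 2 * ((q : ℤ) ^ 2 - 1) * P.ord (X j) := by
    intro j
    by_cases hj : j = 0 ∨ j = 1
    · have h1 := hsm j hj
      have h2 : (0 : ℤ) ≤ (q : ℤ) ^ 2 * (((q : ℤ) ^ 2 - 1) * P.ord (X j)) := by
        rw [h1]
        have : (0 : ℤ) ≤ -P.ord t := by linarith
        positivity
      have h3 : (q : ℤ) ^ 2 * ((q : ℤ) ^ 2 - 1) * P.ord (X j) =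
          (q : ℤ) ^ 2 * (((q : ℤ) ^ 2 - 1) * P.ord (X j)) := by ring
      rw [h3]
      linarith
    · have hj' : j = 2 ∨ j = 3 := by
        fin_cases j <;> simp_all
      rw [htp j hj']
  -- the last two rows
  have hrow : ∀ j : Fin 4, w.1.1 2 j - (if (2 : Fin 4) = j then 1 else 0) = 0 ∧
      w.1.1 3 j - (if (3 : Fin 4) = j then 1 else 0) = 0 := by
    intro j
    by_contra hne
    have hne' : w.1.1 2 j - (if (2 : Fin 4) = j then 1 else 0) ≠ 0 ∨
        w.1.1 3 j - (if (3 : Fin 4) = j then 1 else 0) ≠ 0 := by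
      by_contra hcon
      push Not at hcon
      exact hne hcon
    have h1 := hO.top (fun l => w.1.1 l j - if l = j then 1 else 0) hne'
    have h2 := hbig (X j) (hXne j)
    rw [hdiff j] at h2
    rcases h2 with h2 | h2
    · have h3 := hR.ind (fun l => w.1.1 l j - if l = j then 1 else 0) h2
      rcases hne' with h | h
      · exact h (congrFun h3 2)
      · exact h (congrFun h3 3)
    · have h3 := hlow j
      have h4 : (q : ℤ) ^ 2 * ((q : ℤ) ^ 2 - 1) * (P.ord (X j) + 1) ≤
          (q : ℤ) ^ 2 * ((q : ℤ) ^ 2 - 1) *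
            P.ord (∑ l, cst k F L (w.1.1 l j - if l = j then 1 else 0) * X l) :=
        mul_le_mul_of_nonneg_left h2 hQ2.le
      have h5 : (q : ℤ) ^ 2 * ((q : ℤ) ^ 2 - 1) *
            P.ord (∑ l, cst k F L (w.1.1 l j - if l = j then 1 else 0) * X l) = P.ord t := h1
      rw [h5] at h4
      linarith
  -- the first two columns
  have hcol : ∀ j : Fin 4, (j = 0 ∨ j = 1) → ∀ i, w.1.1 i j - (if i = j then 1 else 0) = 0 := by
    intro j hj
    by_contra hcon
    have hne : w.1.1 0 j - (if (0 : Fin 4) = j then 1 else 0) ≠ 0 ∨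
        w.1.1 1 j - (if (1 : Fin 4) = j then 1 else 0) ≠ 0 := by
      by_contra hcon2
      push Not at hcon2
      refine hcon fun i => ?_
      fin_cases i
      · exact hcon2.1
      · exact hcon2.2
      · exact (hrow j).1
      · exact (hrow j).2
    have h1 := hO.small (fun l => w.1.1 l j - if l = j then 1 else 0) (hrow j).1 (hrow j).2 hne
    have h2 := hbig (X j) (hXne j)
    rw [hdiff j] at h2
    rcases h2 with h2 | h2
    · have h3 := hR.ind (fun l => w.1.1 l j - if l = j then 1 else 0) h2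
      rcases hne with h | h
      · exact h (congrFun h3 0)
      · exact h (congrFun h3 1)
    · have h3 := hsm j hj
      have h4 : ((q : ℤ) ^ 2 - 1) * (P.ord (X j) + 1) ≤
          ((q : ℤ) ^ 2 - 1) *
            P.ord (∑ l, cst k F L (w.1.1 l j - if l = j then 1 else 0) * X l) :=
        mul_le_mul_of_nonneg_left h2 hQ.le
      have h5 : ((q : ℤ) ^ 2 - 1) *
            P.ord (∑ l, cst k F L (w.1.1 l j - if l = j then 1 else 0) * X l) = -P.ord t := h1
      rw [h5] at h4
      linarith
  refine ⟨fun i j hj => sub_eq_zero.1 (hcol j hj i), fun i j hi => ?_⟩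
  rcases hi with rfl | rfl
  · exact sub_eq_zero.1 (hrow j).1
  · exact sub_eq_zero.1 (hrow j).2

end Pool.CND
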